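import Pool.Agent.W2helper53.BT.Ratio

/-!
# Project BT2, module FERMEVEN: Fermat curves of even degree `n ≥ 6`
-/

set_option autoImplicit false

namespace Pool.Agent.W2helper53.BT

open IsDedekindDomain NumberField Polynomial
open Pool.Agent.W2helper83.BT
open Pool.Agent.T6.H62.PP.ModVal

/-- finitely many `x` -/
theorem fin_x_even (hF : FIVE) (hS : SEL 2) (hR : ROOTS) {n : ℕ} (h6 : 6 ≤ n) (hn : Even n)
    {L : Type} [Field L] [NumberField L] {ζ : L} (hζ : IsPrimitiveRoot ζ n) :
    {x : L | ∃ y : L, x ^ n + y ^ n = 1}.Finite := by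
  classical
  have hn0 : 0 < n := by omega
  obtain ⟨T, hT0, hT⟩ := hS L _ (fin_places L hn0)
  have hone : ∀ i : ℕ, i < 4 → ζ ^ (i + 1) ≠ 1 := by
    intro i hi h
    have := Nat.le_of_dvd (by omega) ((hζ.pow_eq_one_iff_dvd _).1 h)
    omega
  have hone' : ∀ i : ℕ, i < 4 → 1 - ζ ^ (i + 1) ≠ 0 := fun i hi h =>
    hone i hi (sub_eq_zero.1 h).symm
  -- the elements whose square roots are adjoined
  let T2 : Finset L := (T ×ˢ Finset.range 4).image fun p => (1 - ζ ^ (p.2 + 1))⁻¹ * p.1
  obtain ⟨M, _, _, _, hM⟩ := hR L T2 2 (by norm_num)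
  let e : ℕ → L := fun i => 1 - (1 - ζ ^ (i + 1))⁻¹
  have he : ∀ i j : ℕ, i < 4 → j < 4 → i ≠ j → e i ≠ e j := by
    intro i j hi hj hij h
    have h1 : (1 - ζ ^ (i + 1))⁻¹ = (1 - ζ ^ (j + 1))⁻¹ := sub_right_injective h
    have h2 := sub_right_injective (inv_injective h1)
    have := hζ.pow_inj (by omega) (by omega) h2
    omega
  have heM : ∀ i j : ℕ, i < 4 → j < 4 → i ≠ j → algebraMap L M (e i) ≠ algebraMap L M (e j) :=
    fun i j hi hj hij h => he i j hi hj hij ((algebraMap L M).injective h)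
  have hfive := hF M (algebraMap L M (e 0)) (algebraMap L M (e 1)) (algebraMap L M (e 2))
    (algebraMap L M (e 3)) (heM 0 1 (by norm_num) (by norm_num) (by norm_num))
    (heM 0 2 (by norm_num) (by norm_num) (by norm_num))
    (heM 0 3 (by norm_num) (by norm_num) (by norm_num))
    (heM 1 2 (by norm_num) (by norm_num) (by norm_num))
    (heM 1 3 (by norm_num) (by norm_num) (by norm_num))
    (heM 2 3 (by norm_num) (by norm_num) (by norm_num))
  have hinj : Function.Injective (fun x : L => algebraMap L M ((1 - x)⁻¹)) := by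
    intro x y h
    exact sub_right_injective (inv_injective ((algebraMap L M).injective h))
  have hpre := hfive.preimage (f := fun x : L => algebraMap L M ((1 - x)⁻¹)) hinj.injOn
  let Z : Finset L := (nthRootsFinset n (1 : L)).image fun η => η⁻¹
  refine (hpre.union Z.finite_toSet).subset ?_
  rintro x ⟨y, hxy⟩
  by_cases h0 : ∀ η ∈ nthRootsFinset n (1 : L), 1 - η * x ≠ 0
  · left
    have h1m : (1 : L) ∈ nthRootsFinset n (1 : L) := by
      rw [mem_nthRootsFinset hn0, one_pow]
    have h1x : 1 - x ≠ 0 := by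
      have := h0 1 h1m
      rwa [one_mul] at this
    have key : ∀ i : ℕ, i < 4 → ∃ s : M,
        algebraMap L M ((1 - x)⁻¹) - algebraMap L M (e i) = s ^ 2 := by
      intro i hi
      have hηi : ζ ^ (i + 1) ∈ nthRootsFinset n (1 : L) := by
        rw [mem_nthRootsFinset hn0, ← pow_mul, mul_comm, pow_mul, hζ.pow_eq_one, one_pow]
      have hne := h0 _ hηi
      have hq : (1 - ζ ^ (i + 1) * x) / (1 - 1 * x) ≠ 0 := div_ne_zero hne (h0 1 h1m)
      obtain ⟨t, ht, b, hb, hβ⟩ := hT (Units.mk0 _ hq) (by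
        intro v hv
        obtain ⟨c, hc, hval⟩ := val_ratio v hn0 hv hζ hxy h0 _ _ hηi h1m
        exact (Int.natCast_dvd_natCast.2 hn.two_dvd).trans (dvd_order hq hc v hval))
      rw [Units.val_mk0, one_mul] at hβ
      obtain ⟨θ, hθ⟩ := hM ((1 - ζ ^ (i + 1))⁻¹ * t) (Finset.mem_image.2 ⟨(t, i),
        Finset.mem_product.2 ⟨ht, Finset.mem_range.2 hi⟩, rfl⟩)
      refine ⟨θ * algebraMap L M b, ?_⟩
      rw [mul_pow, hθ, ← map_pow, ← map_mul, ← map_sub]
      congr 1
      have hz := hone' i hi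
      have e2 : (1 - x)⁻¹ - e i = (1 - ζ ^ (i + 1))⁻¹ * ((1 - ζ ^ (i + 1) * x) / (1 - x)) := by
        simp only [e]
        field_simp
        ring
      rw [e2, hβ]
      ring
    exact ⟨key 0 (by norm_num), key 1 (by norm_num), key 2 (by norm_num), key 3 (by norm_num)⟩
  · right
    push Not at h0
    obtain ⟨η, hη, hz⟩ := h0
    rw [Finset.mem_coe]
    refine Finset.mem_image.2 ⟨η, hη, ?_⟩
    have h1 : η * x = 1 := by linear_combination -hz
    exact inv_eq_of_mul_eq_one_right h1

/-- Mordell's conjecture for the Fermat curves of even degree `n ≥ 6` -/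
theorem ferm_even (hF : FIVE) (hS : SEL 2) (hR : ROOTS) (n : ℕ) (h6 : 6 ≤ n) (hn : Even n) :
    FERM n := by
  intro K _ _
  have : NeZero n := ⟨by omega⟩
  let L := CyclotomicField n K
  have : NumberField L := inferInstance
  have hζ := IsCyclotomicExtension.zeta_spec n K L
  exact ferm_of (L := L) (fin_x_even hF hS hR h6 hn hζ)

end Pool.Agent.W2helper53.BT
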