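import Pool.Agent.W2helper53.BT.Ratio

/-!
# Project BT2, module FERM4: the Fermat curve of degree `4`
-/

set_option autoImplicit false

namespace Pool.Agent.W2helper53.BT

open IsDedekindDomain NumberField Polynomial
open Pool.Agent.W2helper83.BT
open Pool.Agent.T6.H62.PP.ModVal

section

variable {M : Type} [Field M] [NumberField M] (v : HeightOneSpectrum (𝓞 M))

omit [NumberField M] in
/-- a unit outside `2` -/
theorem val_two [NumberField M] (hv : ¬ ((2 : ℤ) : 𝓞 M) ∈ v.asIdeal) :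
    v.valuation M (2 : M) = 1 := by
  refine le_antisymm (by simpa using val_int_le v (2 : ℤ)) ?_
  by_contra hlt
  rw [not_le] at hlt
  exact hv ((val_int_lt v (2 : ℤ)).1 (by simpa using hlt))

/-- the factors of `t ^ 2 - a ^ 2` -/
theorem val_fac (hv : ¬ ((2 : ℤ) : 𝓞 M) ∈ v.asIdeal) {a t c d : M} (ha : v.valuation M a = 1)
    (hc : c ≠ 0) (hd : d ≠ 0) (h : v.valuation M (t ^ 2 - a ^ 2) = v.valuation M c ^ 4)
    (ht : v.valuation M t = v.valuation M d ^ 2) :
    ∃ b : M, b ≠ 0 ∧ v.valuation M (t - a) = v.valuation M b ^ 2 := by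
  rcases le_or_gt (v.valuation M t) 1 with hx | hx
  · have h1 : v.valuation M (t - a) ≤ 1 :=
      le_trans (Valuation.map_sub _ _ _) (max_le hx ha.le)
    have h2 : v.valuation M (t + a) ≤ 1 :=
      le_trans (Valuation.map_add _ _ _) (max_le hx ha.le)
    rcases h1.lt_or_eq with h3 | h3
    · have h4 : v.valuation M (t + a) = 1 := by
        refine le_antisymm h2 ?_
        by_contra hlt
        rw [not_le] at hlt
        have h5 : v.valuation M (2 * a) < 1 := by
          have e : 2 * a = (t + a) - (t - a) := by ring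
          rw [e]
          exact lt_of_le_of_lt (Valuation.map_sub _ _ _) (max_lt hlt h3)
        rw [map_mul, ha, val_two v hv, mul_one] at h5
        exact lt_irrefl _ h5
      refine ⟨c ^ 2, pow_ne_zero _ hc, ?_⟩
      have e : t ^ 2 - a ^ 2 = (t - a) * (t + a) := by ring
      rw [e, map_mul, h4, mul_one] at h
      rw [h, map_pow, ← pow_mul]
    · exact ⟨1, one_ne_zero, by rw [h3, map_one, one_pow]⟩
  · refine ⟨d, hd, ?_⟩
    rw [← ht]
    refine Valuation.map_sub_eq_of_lt_left (v.valuation M) ?_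
    rw [ha]
    exact hx

end

/-- finitely many `t` -/
theorem fin_t (hF : FIVE) (hS : SEL 2) (hR : ROOTS) {M : Type} [Field M] [NumberField M]
    {z : M} (hz : IsPrimitiveRoot z 8) :
    {t : M | ∃ x y : M, x ^ 4 + y ^ 4 = 1 ∧
      (∀ η ∈ nthRootsFinset 4 (1 : M), 1 - η * x ≠ 0) ∧ t ^ 2 = (x - 1) / (x + 1)}.Finite := by
  classical
  have hz0 : z ≠ 0 := hz.ne_zero (by norm_num)
  have hz4 : z ^ 4 = -1 := by
    have h1 : (z ^ 4 - 1) * (z ^ 4 + 1) = 0 := by
      linear_combination hz.pow_eq_one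
    rcases mul_eq_zero.1 h1 with h | h
    · exact absurd (sub_eq_zero.1 h) (hz.pow_ne_one_of_pos_of_lt (by norm_num) (by norm_num))
    · linear_combination h
  have hζ : IsPrimitiveRoot (z ^ 2) 4 := hz.pow (by norm_num) (by norm_num)
  obtain ⟨T, hT0, hT⟩ := hS M _ (fin_places M (n := 2) (by norm_num))
  obtain ⟨M', _, _, _, hM⟩ := hR M T 2 (by norm_num)
  have hne : ∀ i j : ℕ, i < 8 → j < 8 → i ≠ j → algebraMap M M' (z ^ i) ≠ algebraMap M M' (z ^ j) :=
    fun i j hi hj hij h => hij (hz.pow_inj hi hj ((algebraMap M M').injective h))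
  have hfive := hF M' (algebraMap M M' (z ^ 1)) (algebraMap M M' (z ^ 3)) (algebraMap M M' (z ^ 5))
    (algebraMap M M' (z ^ 7)) (hne 1 3 (by norm_num) (by norm_num) (by norm_num))
    (hne 1 5 (by norm_num) (by norm_num) (by norm_num))
    (hne 1 7 (by norm_num) (by norm_num) (by norm_num))
    (hne 3 5 (by norm_num) (by norm_num) (by norm_num))
    (hne 3 7 (by norm_num) (by norm_num) (by norm_num))
    (hne 5 7 (by norm_num) (by norm_num) (by norm_num))
  refine (hfive.preimage (f := algebraMap M M') (algebraMap M M').injective.injOn).subset ?_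
  rintro t ⟨x, y, hxy, h0, ht⟩
  have m1 : (1 : M) ∈ nthRootsFinset 4 (1 : M) := by
    rw [mem_nthRootsFinset (by norm_num), one_pow]
  have mm1 : (-1 : M) ∈ nthRootsFinset 4 (1 : M) := by
    rw [mem_nthRootsFinset (by norm_num)]; norm_num
  have mi : z ^ 2 ∈ nthRootsFinset 4 (1 : M) := by
    rw [mem_nthRootsFinset (by norm_num), ← pow_mul]; exact hz.pow_eq_one
  have mmi : -z ^ 2 ∈ nthRootsFinset 4 (1 : M) := by
    rw [mem_nthRootsFinset (by norm_num)]
    linear_combination (z ^ 4 - 1) * hz4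
  have hx1 : x + 1 ≠ 0 := by
    have := h0 _ mm1
    intro h
    apply this
    linear_combination h
  have hxm : 1 - x ≠ 0 := by
    have := h0 _ m1
    rwa [one_mul] at this
  -- orders of `t`
  have wt : ∀ v : HeightOneSpectrum (𝓞 M), ¬ ((2 : ℤ) : 𝓞 M) ∈ v.asIdeal →
      ∃ d : M, d ≠ 0 ∧ v.valuation M t = v.valuation M d ^ 2 := by
    intro v hv
    have hv4 : ¬ (((4 : ℕ) : ℤ) : 𝓞 M) ∈ v.asIdeal := by
      intro h
      have e : (((4 : ℕ) : ℤ) : 𝓞 M) = ((2 : ℤ) : 𝓞 M) * ((2 : ℤ) : 𝓞 M) := by norm_num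
      rw [e] at h
      rcases v.isPrime.mem_or_mem h with h | h <;> exact hv h
    obtain ⟨b, hb, hb'⟩ := val_ratio v (by norm_num) hv4 hζ hxy h0 _ _ m1 mm1
    refine ⟨b, hb, ?_⟩
    have h1 : v.valuation M t ^ 2 = (v.valuation M b ^ 2) ^ 2 := by
      rw [← map_pow, ht, ← pow_mul, ← hb', ← Valuation.map_neg]
      congr 1
      rw [← neg_div]
      congr 1 <;> ring
    exact (pow_left_inj₀ zero_le zero_le two_ne_zero).1 h1
  -- orders of `t ^ 2 - w ^ 2`
  have wf : ∀ v : HeightOneSpectrum (𝓞 M), ¬ ((2 : ℤ) : 𝓞 M) ∈ v.asIdeal →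
      ∀ w u η : M, v.valuation M u = 1 → η ∈ nthRootsFinset 4 (1 : M) →
      t ^ 2 - w ^ 2 = u * ((1 - η * x) / (1 - (-1) * x)) →
      ∃ c : M, c ≠ 0 ∧ v.valuation M (t ^ 2 - w ^ 2) = v.valuation M c ^ 4 := by
    intro v hv w u η hu hη he
    have hv4 : ¬ (((4 : ℕ) : ℤ) : 𝓞 M) ∈ v.asIdeal := by
      intro h
      have e : (((4 : ℕ) : ℤ) : 𝓞 M) = ((2 : ℤ) : 𝓞 M) * ((2 : ℤ) : 𝓞 M) := by norm_num
      rw [e] at h
      rcases v.isPrime.mem_or_mem h with h | h <;> exact hv h
    obtain ⟨b, hb, hb'⟩ := val_ratio v (by norm_num) hv4 hζ hxy h0 _ _ hη mm1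
    exact ⟨b, hb, by rw [he, map_mul, hu, one_mul, hb']⟩
  -- the units
  have hu : ∀ v : HeightOneSpectrum (𝓞 M), ¬ ((2 : ℤ) : 𝓞 M) ∈ v.asIdeal →
      ∀ u : M, u ^ 4 = -4 → v.valuation M u = 1 := by
    intro v hv u hu
    have h1 : (v.valuation M u) ^ 4 = 1 := by
      rw [← map_pow, hu, Valuation.map_neg]
      have e : (4 : M) = 2 ^ 2 := by norm_num
      rw [e, map_pow, val_two v hv, one_pow]
    exact (pow_eq_one_iff.1 h1).resolve_right (by omega)
  have id1 : ∀ w : M, w ^ 2 = -z ^ 2 →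
      t ^ 2 - w ^ 2 = (z ^ 2 * (1 + z ^ 2)) * ((1 - z ^ 2 * x) / (1 - (-1) * x)) := by
    intro w hw
    have e3 : 1 - (-1) * x = x + 1 := by ring
    rw [ht, hw, e3]
    field_simp
    linear_combination (x - 1 + z ^ 2 * x) * hz4
  have id2 : ∀ w : M, w ^ 2 = z ^ 2 →
      t ^ 2 - w ^ 2 = (-z ^ 2 * (1 - z ^ 2)) * ((1 - (-z ^ 2) * x) / (1 - (-1) * x)) := by
    intro w hw
    have e3 : 1 - (-1) * x = x + 1 := by ring
    rw [ht, hw, e3]
    field_simp
    linear_combination (x - 1 - z ^ 2 * x) * hz4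
  have u1 : (z ^ 2 * (1 + z ^ 2)) ^ 4 = -4 := by
    have e : (z ^ 2 * (1 + z ^ 2)) ^ 4 = (z ^ 4) ^ 2 * ((1 + z ^ 4) + 2 * z ^ 2) ^ 2 := by ring
    rw [e, hz4]
    linear_combination 4 * hz4
  have u2 : (-z ^ 2 * (1 - z ^ 2)) ^ 4 = -4 := by
    have e : (-z ^ 2 * (1 - z ^ 2)) ^ 4 = (z ^ 4) ^ 2 * ((1 + z ^ 4) - 2 * z ^ 2) ^ 2 := by ring
    rw [e, hz4]
    linear_combination 4 * hz4
  have key : ∀ w : M, w ^ 4 = -1 → (w ^ 2 = z ^ 2 ∨ w ^ 2 = -z ^ 2) →
      ∃ s : M', algebraMap M M' t - algebraMap M M' w = s ^ 2 := by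
    intro w hw4 hw
    have wfac : ∀ v : HeightOneSpectrum (𝓞 M), ¬ ((2 : ℤ) : 𝓞 M) ∈ v.asIdeal →
        ∃ b : M, b ≠ 0 ∧ v.valuation M (t - w) = v.valuation M b ^ 2 := by
      intro v hv
      have hw1 : v.valuation M w = 1 := by
        refine val_root v (d := 8) (by norm_num) ?_
        have e : w ^ 8 = (w ^ 4) ^ 2 := by ring
        rw [e, hw4]; norm_num
      obtain ⟨d, hd, hd'⟩ := wt v hv
      have : ∃ c : M, c ≠ 0 ∧ v.valuation M (t ^ 2 - w ^ 2) = v.valuation M c ^ 4 := by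
        rcases hw with hw | hw
        · exact wf v hv w _ _ (hu v hv _ u2) mmi (id2 w hw)
        · exact wf v hv w _ _ (hu v hv _ u1) mi (id1 w hw)
      obtain ⟨c, hc, hc'⟩ := this
      exact val_fac v hv hw1 hc hd hc' hd'
    have htw : t - w ≠ 0 := by
      intro h
      have h1 : t ^ 2 - w ^ 2 = 0 := by linear_combination (t + w) * h
      have hx1' : 1 - (-1) * x ≠ 0 := by
        intro h; apply hx1; linear_combination h
      rcases hw with hw | hw
      · rw [id2 w hw] at h1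
        rcases mul_eq_zero.1 h1 with h2 | h2
        · rw [h2] at u2; norm_num at u2
        · rcases div_eq_zero_iff.1 h2 with h3 | h3
          · exact h0 _ mmi h3
          · exact hx1' h3
      · rw [id1 w hw] at h1
        rcases mul_eq_zero.1 h1 with h2 | h2
        · rw [h2] at u1; norm_num at u1
        · rcases div_eq_zero_iff.1 h2 with h3 | h3
          · exact h0 _ mi h3
          · exact hx1' h3
    obtain ⟨ε, hε, b, hb, hβ⟩ := hT (Units.mk0 _ htw) (by
      intro v hv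
      obtain ⟨c, hc, hval⟩ := wfac v hv
      exact dvd_order htw hc v hval)
    rw [Units.val_mk0] at hβ
    obtain ⟨θ, hθ⟩ := hM ε hε
    refine ⟨θ * algebraMap M M' b, ?_⟩
    rw [mul_pow, hθ, ← map_pow, ← map_mul, ← map_sub, hβ]
  refine ⟨key _ ?_ ?_, key _ ?_ ?_, key _ ?_ ?_, key _ ?_ ?_⟩
  · rw [pow_one]; exact hz4
  · left; rw [pow_one]
  · linear_combination (z ^ 8 - z ^ 4 + 1) * hz4
  · right; linear_combination z ^ 2 * hz4
  · linear_combination (z ^ 16 - z ^ 12 + z ^ 8 - z ^ 4 + 1) * hz4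
  · left; linear_combination (z ^ 6 - z ^ 2) * hz4
  · linear_combination (z ^ 24 - z ^ 20 + z ^ 16 - z ^ 12 + z ^ 8 - z ^ 4 + 1) * hz4
  · right; linear_combination (z ^ 10 - z ^ 6 + z ^ 2) * hz4

theorem frac_aux {F : Type*} [Field F] [CharZero F] {a : F} (h : a + 1 ≠ 0) :
    (1 + (a - 1) / (a + 1)) / (1 - (a - 1) / (a + 1)) = a := by
  have h2 : (2 : F) ≠ 0 := two_ne_zero
  have e : 1 - (a - 1) / (a + 1) = 2 / (a + 1) := by
    field_simp
    ring
  rw [e]
  field_simp
  ring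

/-- finitely many `x` -/
theorem fin_x_four (hF : FIVE) (hS : SEL 2) (hS4 : SEL 4) (hR : ROOTS) (L : Type) [Field L]
    [NumberField L] {ζ : L} (hζ : IsPrimitiveRoot ζ 4) :
    {x : L | ∃ y : L, x ^ 4 + y ^ 4 = 1}.Finite := by
  classical
  obtain ⟨T, hT0, hT⟩ := hS4 L _ (fin_places L (n := 4) (by norm_num))
  obtain ⟨M1, _, _, _, hM1⟩ := hR L T 2 (by norm_num)
  let M := CyclotomicField 8 M1
  have : NumberField M := inferInstance
  have hz := IsCyclotomicExtension.zeta_spec 8 M1 M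
  have ht := fin_t hF hS hR hz
  let φ : L →+* M := (algebraMap M1 M).comp (algebraMap L M1)
  have hφ : Function.Injective φ := φ.injective
  let Z : Finset L := (nthRootsFinset 4 (1 : L)).image fun η => η⁻¹
  have hpre := (ht.image (fun t : M => (1 + t ^ 2) / (1 - t ^ 2))).preimage (f := φ) hφ.injOn
  refine (hpre.union Z.finite_toSet).subset ?_
  rintro x ⟨y, hxy⟩
  by_cases h0 : ∀ η ∈ nthRootsFinset 4 (1 : L), 1 - η * x ≠ 0
  · left
    have m1 : (1 : L) ∈ nthRootsFinset 4 (1 : L) := by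
      rw [mem_nthRootsFinset (by norm_num), one_pow]
    have mm1 : (-1 : L) ∈ nthRootsFinset 4 (1 : L) := by
      rw [mem_nthRootsFinset (by norm_num)]; norm_num
    have hx1 : x + 1 ≠ 0 := by
      have := h0 _ mm1
      intro h
      apply this
      linear_combination h
    have hxm : x - 1 ≠ 0 := by
      have := h0 _ m1
      intro h
      apply this
      linear_combination -h
    have hq : (x - 1) / (x + 1) ≠ 0 := div_ne_zero hxm hx1
    obtain ⟨ε, hε, g, hg, hβ⟩ := hT (Units.mk0 _ hq) (by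
      intro v hv
      obtain ⟨c, hc, hval⟩ := val_ratio v (by norm_num) hv hζ hxy h0 _ _ m1 mm1
      refine dvd_order hq hc v ?_
      rw [← hval, ← Valuation.map_neg]
      congr 1
      rw [← neg_div]
      congr 1 <;> ring)
    rw [Units.val_mk0] at hβ
    obtain ⟨θ, hθ⟩ := hM1 ε hε
    let t : M := algebraMap M1 M (θ * algebraMap L M1 (g ^ 2))
    have ht2 : t ^ 2 = φ ((x - 1) / (x + 1)) := by
      simp only [t, φ, RingHom.comp_apply]
      rw [← map_pow, mul_pow, hθ, ← map_pow, ← map_mul, hβ]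
      congr 2
      ring
    have ht2' : t ^ 2 = (φ x - 1) / (φ x + 1) := by
      rw [ht2, map_div₀, map_sub, map_add, map_one]
    have hφ1 : φ x + 1 ≠ 0 := by
      intro h
      apply hx1
      apply hφ
      rw [map_add, map_one, map_zero, h]
    refine ⟨t, ⟨φ x, φ y, ?_, ?_, ht2'⟩, ?_⟩
    · rw [← map_pow, ← map_pow, ← map_add, hxy, map_one]
    · intro η hη h
      -- `φ x ^ 4 = 1`, so `x ^ 4 = 1`
      have h4 : (φ x) ^ 4 = 1 := by
        rw [mem_nthRootsFinset (by norm_num)] at hη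
        have h5 : η * φ x = 1 := by linear_combination -h
        have h6 : (η * φ x) ^ 4 = 1 := by rw [h5, one_pow]
        rwa [mul_pow, hη, one_mul] at h6
      have h7 : x ^ 4 = 1 := by
        apply hφ
        rw [map_pow, map_one, h4]
      have h8 : x ^ 3 ∈ nthRootsFinset 4 (1 : L) := by
        rw [mem_nthRootsFinset (by norm_num)]
        linear_combination (x ^ 8 + x ^ 4 + 1) * h7
      exact h0 _ h8 (by linear_combination -h7)
    · simp only
      rw [ht2']
      exact frac_aux hφ1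
  · right
    push Not at h0
    obtain ⟨η, hη, hz⟩ := h0
    rw [Finset.mem_coe]
    refine Finset.mem_image.2 ⟨η, hη, ?_⟩
    have h1 : η * x = 1 := by linear_combination -hz
    exact inv_eq_of_mul_eq_one_right h1

/-- Mordell's conjecture for the Fermat curve of degree `4` -/
theorem ferm4 (hF : FIVE) (hS : SEL 2) (hS4 : SEL 4) (hR : ROOTS) : FERM 4 := by
  intro K _ _
  let L := CyclotomicField 4 K
  have : NumberField L := inferInstance
  have hζ := IsCyclotomicExtension.zeta_spec 4 K L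
  exact ferm_of (L := L) (fin_x_four hF hS hS4 hR L hζ)

end Pool.Agent.W2helper53.BT
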