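import Pool.Agent.W2helper83.BT.Defs3
import Pool.Agent.W2helper73.BT.Ratio

/-!
# Project BT, third part, piece RATIOA (helper83): the ratios of two periodic points
-/

set_option autoImplicit false

namespace Pool.Agent.W2helper53.BT

open IsDedekindDomain NumberField Polynomial
open Pool.Agent.W2helper83.BT
open Pool.Agent.W2helper73.BT (val_nat)

theorem map_fa {K L : Type} [Field K] [Field L] (φ : K →+* L) (e : ℤ) (a c x : K) (n : ℕ) :
    φ ((fa e a c)^[n] x) = (fa e (φ a) (φ c))^[n] (φ x) := by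
  induction n generalizing x with
  | zero => rfl
  | succ n ih =>
    rw [Function.iterate_succ_apply, Function.iterate_succ_apply, ih]
    congr 1
    unfold fa
    rw [map_add, map_mul, map_zpow₀]

theorem map_pera {K L : Type} [Field K] [Field L] (φ : K →+* L) {e : ℤ} {a c x : K}
    (h : PerA e a c x) : PerA e (φ a) (φ c) (φ x) := by
  obtain ⟨n, hn, h1⟩ := h
  exact ⟨n, hn, by rw [← map_fa, h1]⟩

/-- the places where a nonzero element is not a unit are finitely many -/
theorem fin_places_unit {K : Type} [Field K] [NumberField K] (g : Kˣ) :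
    {v : HeightOneSpectrum (𝓞 K) | v.valuation K (g : K) ≠ 1}.Finite := by
  have h1 := HeightOneSpectrum.Support.finite (𝓞 K) (K := K) (g : K)
  have h2 := HeightOneSpectrum.Support.finite (𝓞 K) (K := K) ((g⁻¹ : Kˣ) : K)
  refine (h1.union h2).subset ?_
  intro v hv
  rcases lt_or_gt_of_ne hv with h | h
  · right
    show 1 < v.valuation K ((g⁻¹ : Kˣ) : K)
    rw [Units.val_inv_eq_inv_val, map_inv₀]
    refine (one_lt_inv₀ ?_).2 h
    exact zero_lt_iff.2 ((Valuation.ne_zero_iff _).2 g.ne_zero)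
  · left
    exact h

theorem ratioa_core (hL : LOCA) (e : ℤ) (d l n : ℕ) (hP : POW l n) (hn : 2 ≤ n) (hnd : n + 1 ≤ d)
    (he : e = d ∨ e = -d) (hdv : (l : ℤ) ∣ e - 1)
    (K : Type) [Field K] [NumberField K] (ζ : K) (hζ : IsPrimitiveRoot ζ d) (G : Finset Kˣ) :
    {ρ : K | ∃ a ∈ Subgroup.closure (G : Set Kˣ), ∃ t c x y : K, t ≠ 0 ∧
      PerA e ((a : K) * t ^ l) c x ∧ PerA e ((a : K) * t ^ l) c y ∧ x ≠ y ∧ y ≠ 0 ∧
      ρ = x / y}.Finite := by
  classical
  have hζd := hζ.pow_eq_one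
  have hfin : {v : HeightOneSpectrum (𝓞 K) | ((d : ℤ) : 𝓞 K) ∈ v.asIdeal}.Finite := by
    have hI : Ideal.span {((d : ℤ) : 𝓞 K)} ≠ ⊥ := by
      rw [Ne, Ideal.span_singleton_eq_bot]
      have : d ≠ 0 := by omega
      exact_mod_cast this
    refine (Ideal.finite_factors hI).subset (fun v hv => ?_)
    exact Ideal.dvd_span_singleton.2 hv
  let S : Set (HeightOneSpectrum (𝓞 K)) := {v | ((d : ℤ) : 𝓞 K) ∈ v.asIdeal} ∪
    ⋃ g ∈ G, {v | v.valuation K (g : K) ≠ 1}
  have hS : S.Finite := hfin.union (G.finite_toSet.biUnion fun g _ => fin_places_unit g)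
  have hunit : ∀ a ∈ Subgroup.closure (G : Set Kˣ), ∀ v ∉ S, v.valuation K (a : K) = 1 := by
    intro a ha v hv
    induction ha using Subgroup.closure_induction with
    | mem g hg =>
      by_contra h
      exact hv (Or.inr (Set.mem_biUnion hg h))
    | one => rw [Units.val_one, map_one]
    | mul x y _ _ hx hy => rw [Units.val_mul, map_mul, hx, hy, one_mul]
    | inv x _ hx => rw [Units.val_inv_eq_inv_val, map_inv₀, hx, inv_one]
  let r : Fin n → K := fun i => ζ ^ ((i : ℕ) + 1)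
  have hr : Function.Injective r := by
    intro i j h
    have h1 := hζ.pow_inj (by omega) (by omega) h
    exact Fin.ext (by omega)
  have hroot : ∀ i, r i ^ d = 1 := by
    intro i
    show (ζ ^ ((i : ℕ) + 1)) ^ d = 1
    rw [← pow_mul, mul_comm, pow_mul, hζd, one_pow]
  have hne1 : ∀ i, r i ≠ 1 := fun i => hζ.pow_ne_one_of_pos_of_lt (by omega) (by omega)
  obtain ⟨q, hq⟩ := hdv
  refine ((hP K S hS r hr).union (Set.finite_range r)).subset ?_
  rintro ρ ⟨a, ha, t, c, x, y, ht, hx, hy, hxy, hy0, hρ⟩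
  by_cases hin : ∃ i, r i = ρ
  · exact Or.inr hin
  push Not at hin
  left
  refine ⟨fun i h => hin i h.symm, ?_⟩
  intro i j v hv
  have hs : ∀ i, ρ - r i ≠ 0 := fun i => sub_ne_zero.2 fun h => hin i h.symm
  have e1 : ∀ i, x - r i * y = (ρ - r i) * y := fun i => by rw [hρ]; field_simp
  obtain ⟨k, u, hu, hval⟩ := hL K v d e ((a : K) * t ^ l) c x y (r i) (r j) (by omega) he
    (val_nat v fun h => hv (Or.inl h)) ⟨ζ, hζ⟩ (mul_ne_zero a.ne_zero (pow_ne_zero _ ht)) hx hy hxy
    (hroot i) (hne1 i) (hroot j) (hne1 j) (by rw [e1]; exact mul_ne_zero (hs i) hy0)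
    (by rw [e1]; exact mul_ne_zero (hs j) hy0)
  rw [e1, e1, mul_div_mul_right _ _ hy0] at hval
  refine ⟨t ^ k * u ^ (k * q), mul_ne_zero (zpow_ne_zero _ ht) (zpow_ne_zero _ hu), ?_⟩
  rw [hval, hq, map_mul, map_mul, hunit a ha v hv, one_mul, map_pow, map_zpow₀, map_mul, map_zpow₀,
    map_zpow₀, mul_pow, mul_zpow, ← zpow_natCast, ← zpow_natCast, ← zpow_natCast, ← zpow_mul,
    ← zpow_mul, ← zpow_mul, ← zpow_mul]
  congr 2 <;> ring

/-- **RATIOA** -/
theorem ratioa : RATIOAStm := by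
  classical
  intro hL hR e l n hP hn hnd hl hdv K _ _ Γ hΓ
  obtain ⟨G, hG⟩ := hΓ
  obtain ⟨d, hd⟩ : ∃ d : ℕ, d = e.natAbs := ⟨_, rfl⟩
  have hed : e = d ∨ e = -d := by omega
  have : NeZero d := ⟨by omega⟩
  let L := CyclotomicField d K
  have : NumberField L := inferInstance
  have hζ := IsCyclotomicExtension.zeta_spec d K L
  let φ : Kˣ →* Lˣ := Units.map (algebraMap K L).toMonoidHom
  have hfin := ratioa_core hL e d l n hP hn (by omega) hed hdv L _ hζ (G.image φ)
  refine ⟨_, hfin.preimage (f := algebraMap K L) (algebraMap K L).injective.injOn, ?_⟩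
  intro a ha t c x y ht hx hy hxy hy0
  have hinj := (algebraMap K L).injective
  have hcoe : algebraMap K L ((a : K) * t ^ l) = ((φ a : Lˣ) : L) * algebraMap K L t ^ l := by
    rw [map_mul, map_pow]
    rfl
  refine ⟨φ a, ?_, algebraMap K L t, algebraMap K L c, algebraMap K L x, algebraMap K L y,
    fun h => ht (hinj (by rw [h, map_zero])), by rw [← hcoe]; exact map_pera _ hx,
    by rw [← hcoe]; exact map_pera _ hy, fun h => hxy (hinj h),
    fun h => hy0 (hinj (by rw [h, map_zero])), by rw [map_div₀]⟩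
  rw [Finset.coe_image, ← MonoidHom.map_closure, hG]
  exact Subgroup.mem_map_of_mem _ ha

end Pool.Agent.W2helper53.BT
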