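import Pool.Agent.W2helper83.BT.Defs
import Pool.Agent.T6.H62.PP.Val

/-!
# Project BT2: ratios of the factors `1 - η x` on the Fermat curve `x ^ n + y ^ n = 1`
-/

set_option autoImplicit false

namespace Pool.Agent.W2helper53.BT

open IsDedekindDomain NumberField Polynomial
open Pool.Agent.W2helper83.BT
open Pool.Agent.T6.H62.PP.ModVal

section

variable {L : Type} [Field L] [NumberField L] (v : HeightOneSpectrum (𝓞 L))

/-- the orders of the factors are multiples of `n` at the places where `x` is integral -/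
theorem val_factor {n : ℕ} (hn : 0 < n) (hv : ¬ ((n : ℤ) : 𝓞 L) ∈ v.asIdeal)
    {ζ x y : L} (hζ : IsPrimitiveRoot ζ n) (hxy : x ^ n + y ^ n = 1)
    (h0 : ∀ η ∈ nthRootsFinset n (1 : L), 1 - η * x ≠ 0) (hx : v.valuation L x ≤ 1) (η : L)
    (hη : η ∈ nthRootsFinset n (1 : L)) :
    ∃ b : L, b ≠ 0 ∧ v.valuation L (1 - η * x) = v.valuation L b ^ n := by
  classical
  have hroot : ∀ θ ∈ nthRootsFinset n (1 : L), θ ^ n = 1 := by
    intro θ hθ
    rwa [mem_nthRootsFinset hn] at hθ
  have wη : ∀ θ ∈ nthRootsFinset n (1 : L), v.valuation L θ = 1 := fun θ hθ =>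
    val_root v hn (hroot θ hθ)
  have wx : ∀ θ ∈ nthRootsFinset n (1 : L), v.valuation L (θ * x) = v.valuation L x := by
    intro θ hθ
    rw [map_mul, wη θ hθ, one_mul]
  have hprod : ∏ η ∈ nthRootsFinset n (1 : L), (1 - η * x) = y ^ n := by
    rw [← hζ.pow_sub_pow_eq_prod_sub_mul 1 x hn, one_pow]
    linear_combination -hxy
  have hy0 : y ≠ 0 := by
    intro h
    rw [h, zero_pow hn.ne'] at hprod
    exact Finset.prod_ne_zero_iff.2 h0 hprod
  have hle : ∀ θ ∈ nthRootsFinset n (1 : L), v.valuation L (1 - θ * x) ≤ 1 := by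
    intro θ hθ
    refine le_trans (Valuation.map_sub _ _ _) (max_le (by rw [map_one]) ?_)
    rw [wx θ hθ]
    exact hx
  rcases (hle η hη).lt_or_eq with h1 | h1
  · refine ⟨y, hy0, ?_⟩
    rw [← map_pow, ← hprod, map_prod, ← Finset.mul_prod_erase _ _ hη]
    rw [Finset.prod_eq_one, mul_one]
    intro θ hθ
    rw [Finset.mem_erase] at hθ
    refine le_antisymm (hle θ hθ.2) ?_
    by_contra hlt
    rw [not_le] at hlt
    have hηx : v.valuation L x = 1 := by
      rw [← wx η hη]
      have e : η * x = 1 - (1 - η * x) := by ring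
      rw [e]
      have h3 := Valuation.map_sub_eq_of_lt_right (v.valuation L)
        (x := 1 - η * x) (y := 1) (by rw [map_one]; exact h1)
      rw [Valuation.map_sub_swap, h3, map_one]
    have hη0 : η ≠ 0 := by
      intro h
      have := hroot η hη
      rw [h, zero_pow hn.ne'] at this
      exact zero_ne_one this
    have h4 : 1 ≤ v.valuation L (η - θ) := by
      have e : η - θ = η * (1 - θ / η) := by field_simp
      rw [e, map_mul, wη η hη, one_mul]
      refine val_one_sub v hn hv ?_ ?_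
      · rw [div_pow, hroot θ hθ.2, hroot η hη, div_one]
      · intro h5
        rw [div_eq_one_iff_eq hη0] at h5
        exact hθ.1 h5
    have h5 : v.valuation L ((η - θ) * x) < 1 := by
      have e : (η - θ) * x = (1 - θ * x) - (1 - η * x) := by ring
      rw [e]
      exact lt_of_le_of_lt (Valuation.map_sub _ _ _) (max_lt hlt h1)
    rw [map_mul, hηx, mul_one] at h5
    exact absurd h5 (not_lt.2 h4)
  · exact ⟨1, one_ne_zero, by rw [h1, map_one, one_pow]⟩

/-- the orders of the ratios of the factors are multiples of `n` -/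
theorem val_ratio {n : ℕ} (hn : 0 < n) (hv : ¬ ((n : ℤ) : 𝓞 L) ∈ v.asIdeal)
    {ζ x y : L} (hζ : IsPrimitiveRoot ζ n) (hxy : x ^ n + y ^ n = 1)
    (h0 : ∀ η ∈ nthRootsFinset n (1 : L), 1 - η * x ≠ 0) (η θ : L)
    (hη : η ∈ nthRootsFinset n (1 : L)) (hθ : θ ∈ nthRootsFinset n (1 : L)) :
    ∃ b : L, b ≠ 0 ∧ v.valuation L ((1 - η * x) / (1 - θ * x)) = v.valuation L b ^ n := by
  rcases le_or_gt (v.valuation L x) 1 with hx | hx
  · obtain ⟨b, hb, hb'⟩ := val_factor v hn hv hζ hxy h0 hx η hη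
    obtain ⟨c, hc, hc'⟩ := val_factor v hn hv hζ hxy h0 hx θ hθ
    exact ⟨b / c, div_ne_zero hb hc, by rw [map_div₀, map_div₀, hb', hc', div_pow]⟩
  · refine ⟨1, one_ne_zero, ?_⟩
    have key : ∀ θ ∈ nthRootsFinset n (1 : L), v.valuation L (1 - θ * x) = v.valuation L x := by
      intro θ hθ
      have w1 : v.valuation L (θ * x) = v.valuation L x := by
        rw [map_mul, val_root v hn (by rwa [mem_nthRootsFinset hn] at hθ), one_mul]
      rw [← w1]
      refine Valuation.map_sub_eq_of_lt_right (v.valuation L) ?_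
      rw [map_one, w1]
      exact hx
    have hw0 : v.valuation L x ≠ 0 := by
      intro h
      rw [h] at hx
      exact absurd hx (not_lt.2 zero_le_one)
    rw [map_div₀, key η hη, key θ hθ, div_self hw0, map_one, one_pow]

omit [NumberField L] in
/-- from values of elements to orders -/
theorem dvd_order {m : ℕ} {a c : L} (ha : a ≠ 0) (hc : c ≠ 0) [IsDedekindDomain (𝓞 L)]
    [IsFractionRing (𝓞 L) L]
    (v : HeightOneSpectrum (𝓞 L)) (h : v.valuation L a = v.valuation L c ^ m) :
    (m : ℤ) ∣ Multiplicative.toAdd (v.valuationOfNeZero (Units.mk0 a ha)) := by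
  have e1 : v.valuationOfNeZero (Units.mk0 a ha) = v.valuationOfNeZero (Units.mk0 c hc) ^ m := by
    have h1 := v.valuationOfNeZero_eq (K := L) (Units.mk0 a ha)
    have h2 := v.valuationOfNeZero_eq (K := L) (Units.mk0 c hc)
    rw [Units.val_mk0, h] at h1
    rw [Units.val_mk0] at h2
    rw [← h2, ← WithZero.coe_pow] at h1
    exact WithZero.coe_inj.1 h1
  rw [e1, toAdd_pow]
  exact ⟨Multiplicative.toAdd (v.valuationOfNeZero (Units.mk0 c hc)), by simp⟩

end

/-- a finite set of places -/
theorem fin_places (L : Type) [Field L] [NumberField L] {n : ℕ} (hn : 0 < n) :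
    {v : HeightOneSpectrum (𝓞 L) | ((n : ℤ) : 𝓞 L) ∈ v.asIdeal}.Finite := by
  have hI : Ideal.span {((n : ℤ) : 𝓞 L)} ≠ ⊥ := by
    rw [Ne, Ideal.span_singleton_eq_bot]
    have : n ≠ 0 := by omega
    exact_mod_cast this
  refine (Ideal.finite_factors hI).subset (fun v hv => ?_)
  exact Ideal.dvd_span_singleton.2 hv

/-- base change for Fermat curves -/
theorem ferm_of {n : ℕ} {K L : Type} [Field K] [Field L] [Algebra K L]
    (h : {x : L | ∃ y : L, x ^ n + y ^ n = 1}.Finite) :
    {p : K × K | p.1 ^ n + p.2 ^ n = 1}.Finite := by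
  have hi : Function.Injective (fun p : K × K => ((algebraMap K L p.1,
      algebraMap K L p.2) : L × L)) := by
    rintro ⟨p1, p2⟩ ⟨q1, q2⟩ h
    obtain ⟨h3, h4⟩ := Prod.mk.inj h
    exact Prod.ext ((algebraMap K L).injective h3) ((algebraMap K L).injective h4)
  refine ((h.prod h).preimage hi.injOn).subset ?_
  rintro ⟨u, w⟩ huw
  simp only [Set.mem_ofPred_eq] at huw
  have h1 : (algebraMap K L u) ^ n + (algebraMap K L w) ^ n = 1 := by
    rw [← map_pow, ← map_pow, ← map_add, huw, map_one]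
  exact ⟨⟨_, h1⟩, ⟨_, by rw [add_comm]; exact h1⟩⟩

end Pool.Agent.W2helper53.BT
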