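import Pool.Agent.W2helper83.BT.Defs3
import Pool.Agent.W2helper15.BT.Tailz
import Pool.Agent.W2helper6.BT.Ferm

/-!
# Project BT, third part, piece TAILA (helper83): the tails
-/

set_option autoImplicit false

namespace Pool.Agent.W2helper53.BT

open IsDedekindDomain NumberField Polynomial
open Pool.Agent.W2helper83.BT
open Pool.Agent.W2helper15.BT (core_k fin_pow)

/-- a finitely generated subgroup of a commutative group modulo `l`-th powers -/
theorem mod_pow {M : Type*} [CommGroup M] [DecidableEq M] (l : ℕ) (hl : 0 < l) (G : Finset M) :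
    ∃ T : Finset M, ∀ a ∈ Subgroup.closure (G : Set M), ∃ s ∈ T, ∃ g : M, a = s * g ^ l := by
  induction G using Finset.induction_on with
  | empty =>
    refine ⟨{1}, fun a ha => ⟨1, Finset.mem_singleton_self _, 1, ?_⟩⟩
    rw [Finset.coe_empty, Subgroup.closure_empty, Subgroup.mem_bot] at ha
    rw [ha, one_pow, one_mul]
  | insert g G _ ih =>
    obtain ⟨T, hT⟩ := ih
    refine ⟨(Finset.range l ×ˢ T).image fun p => g ^ p.1 * p.2, ?_⟩
    intro a ha
    rw [Finset.coe_insert, Set.insert_eq, Subgroup.closure_union, Subgroup.mem_sup] at ha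
    obtain ⟨x, hx, y, hy, rfl⟩ := ha
    rw [← Subgroup.zpowers_eq_closure, Subgroup.mem_zpowers_iff] at hx
    obtain ⟨k, rfl⟩ := hx
    obtain ⟨s, hs, h, rfl⟩ := hT y hy
    have hl' : (0 : ℤ) < l := by exact_mod_cast hl
    have hk1 : 0 ≤ k % l := Int.emod_nonneg _ hl'.ne'
    have hk2 : k % l < l := Int.emod_lt_of_pos _ hl'
    obtain ⟨i, hi⟩ := Int.eq_ofNat_of_zero_le hk1
    have hil : i < l := by
      rw [hi] at hk2
      exact_mod_cast hk2
    refine ⟨g ^ i * s, Finset.mem_image.2 ⟨(i, s), Finset.mem_product.2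
      ⟨Finset.mem_range.2 hil, hs⟩, rfl⟩, g ^ (k / l) * h, ?_⟩
    have e1 : g ^ k = g ^ i * (g ^ (k / l)) ^ l := by
      rw [← zpow_natCast g i, ← hi, ← zpow_natCast (g ^ (k / (l : ℤ))) l, ← zpow_mul, ← zpow_add]
      congr 1
      have := Int.emod_add_mul_ediv k l
      rw [mul_comm]
      linarith
    rw [e1, mul_pow]
    exact mul_mul_mul_comm _ _ _ _

/-- finitely many points on `U ^ d + k V ^ 2 = 1`, `d ≥ 5` odd -/
theorem core_two (hF : FIVE) (hS : SEL 2) (hR : ROOTS) {d : ℕ} (hd : 5 ≤ d) (hodd : Odd d)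
    (K : Type) [Field K] [NumberField K] (k : K) (hk : k ≠ 0) :
    {V : K | ∃ U : K, U ^ d + k * V ^ 2 = 1}.Finite := by
  classical
  have : NeZero d := ⟨by omega⟩
  let M := CyclotomicField d K
  have : NumberField M := inferInstance
  have hζ := IsCyclotomicExtension.zeta_spec d K M
  obtain ⟨M', _, _, _, hM'⟩ := hR M {4} d (by omega)
  obtain ⟨a', ha'⟩ := hM' 4 (Finset.mem_singleton_self _)
  obtain ⟨L, _, _, _, hL⟩ := hR M' {algebraMap M M' (algebraMap K M k)} 2 (by norm_num)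
  obtain ⟨θ, hθ⟩ := hL _ (Finset.mem_singleton_self _)
  let φ : K →+* L := (algebraMap M' L).comp ((algebraMap M M').comp (algebraMap K M))
  have hφ : Function.Injective φ := φ.injective
  have hζL : IsPrimitiveRoot (algebraMap M' L (algebraMap M M' (IsCyclotomicExtension.zeta d K M)))
      d := (hζ.map_of_injective (algebraMap M M').injective).map_of_injective
        (algebraMap M' L).injective
  have ha : (algebraMap M' L a') ^ d = 4 := by
    rw [← map_pow, ha', map_ofNat, map_ofNat]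
  have ha0 : algebraMap M' L a' ≠ 0 := by
    intro h
    rw [h, zero_pow (by omega)] at ha
    norm_num at ha
  have hθ2 : θ ^ 2 = φ k := hθ
  have hθ0 : θ ≠ 0 := by
    rintro rfl
    rw [zero_pow (by norm_num)] at hθ2
    exact hk (hφ (by rw [← hθ2, map_zero]))
  have hinj : Function.Injective fun V : K => θ * φ V := fun x y h =>
    hφ (mul_left_cancel₀ hθ0 h)
  have hfin := Pool.Agent.W2helper6.BT.fin_x hF hS hR hd hodd hζL ha
  have h2 : (⋃ X ∈ {x : L | ∃ s : L, 1 - 4 * x ^ d = s ^ 2},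
      {V : K | (θ * φ V) ^ 2 = 1 - 4 * X ^ d}).Finite := by
    refine hfin.biUnion fun X _ => ?_
    exact (fin_pow (by norm_num : 0 < 2) (1 - 4 * X ^ d)).preimage hinj.injOn
  refine h2.subset ?_
  rintro V ⟨U, hU⟩
  have e1 : (θ * φ V) ^ 2 = 1 - 4 * (φ U / algebraMap M' L a') ^ d := by
    rw [div_pow, ha, mul_pow, hθ2]
    have := congrArg φ hU
    rw [map_add, map_mul, map_pow, map_pow, map_one] at this
    have h4 : (4 : L) ≠ 0 := by norm_num
    field_simp
    linear_combination this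
  simp only [Set.mem_iUnion]
  exact ⟨φ U / algebraMap M' L a', ⟨θ * φ V, e1.symm⟩, e1⟩

/-- **TAILA** -/
theorem taila : TAILAStm := by
  classical
  intro hR hS hF5 hF e l he hl hdv h6 K _ _ Γ hΓ
  obtain ⟨G, hG⟩ := hΓ
  obtain ⟨T, hT⟩ := mod_pow l (by omega) G
  obtain ⟨d, hd⟩ : ∃ d : ℕ, d = e.natAbs := ⟨_, rfl⟩
  have hed : e = d ∨ e = -d := by omega
  have hd4 : 4 ≤ d := by omega
  have he0 : e ≠ 0 := by omega
  obtain ⟨q, hq⟩ := hdv
  have hcop : Nat.Coprime d l := by
    have h1 : IsCoprime e (l : ℤ) := ⟨1, -q, by linear_combination hq⟩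
    rw [Int.isCoprime_iff_gcd_eq_one] at h1
    rw [Nat.Coprime, hd]
    simpa [Int.gcd] using h1
  -- finitely many `V`
  have hcore : ∀ k : K, k ≠ 0 → {V : K | ∃ U : K, U ^ d + k * V ^ l = 1}.Finite := by
    intro k hk
    rcases Nat.lt_or_ge 2 l with h3 | h3
    · refine core_k (d := d) (m := l) (by omega) h3 ?_ hcop hS (fun m hm => hF m (by omega)) hR
        K k hk
      by_contra hcon
      push Not at hcon
      have h4 : e = -4 := by omega
      have hq' : (l : ℤ) * q = -5 := by rw [← hq, h4]; norm_num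
      have hl34 : l = 3 ∨ l = 4 := by omega
      rcases hl34 with rfl | rfl <;> omega
    · have hl2 : l = 2 := by omega
      subst hl2
      refine core_two hF5 (hS 2 (by norm_num)) hR (by have := h6 rfl; omega) ?_ K k hk
      exact (Nat.coprime_two_right.1 hcop)
  -- the roots of unity
  let Z : Set K := {ζ : K | ζ ^ d = 1 ∧ ζ ≠ 1}
  have hZ : Z.Finite := (fin_pow (by omega : 0 < d) (1 : K)).subset fun ζ hζ => hζ.1
  have hκ : ∀ ζ ∈ Z, ∀ s : Kˣ, (1 - ζ) / (s : K) ≠ 0 := fun ζ hζ s =>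
    div_ne_zero (sub_ne_zero.2 hζ.2.symm) s.ne_zero
  let A : Set K := ((fun ζ : K => 1 - ζ) '' Z) ∪ ⋃ ζ ∈ Z, ⋃ s ∈ T,
    (fun V : K => (s : K) * V⁻¹ ^ l) '' {V : K | ∃ U : K, U ^ d + (1 - ζ) / (s : K) * V ^ l = 1}
  have hA : A.Finite := (hZ.image _).union (hZ.biUnion fun ζ hζ => T.finite_toSet.biUnion
    fun s _ => (hcore _ (hκ ζ hζ s)).image _)
  refine ⟨A, hA, ?_⟩
  intro a ha t c y z x ht hy hz hzy hx
  have hy0 : y ≠ 0 := by
    rintro rfl
    rw [zero_zpow _ he0] at hz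
    exact hzy (zpow_eq_zero_iff he0 |>.1 hz)
  refine ⟨hy0, ?_⟩
  rw [← hG] at ha
  obtain ⟨s, hs, g, rfl⟩ := hT a ha
  unfold fa at hy hx
  obtain ⟨b, hb⟩ : ∃ b : K, b = ((s * g ^ l : Kˣ) : K) * t ^ l := ⟨_, rfl⟩
  rw [← hb] at hy hx ⊢
  obtain ⟨h, hh⟩ : ∃ h : K, h = (g : K) * t * y ^ q := ⟨_, rfl⟩
  have hh0 : h ≠ 0 := by
    rw [hh]
    exact mul_ne_zero (mul_ne_zero g.ne_zero ht) (zpow_ne_zero _ hy0)
  have hα : b * y ^ (e - 1) = (s : K) * h ^ l := by
    have e1 : y ^ (e - 1) = (y ^ q) ^ l := by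
      rw [hq, mul_comm, zpow_mul, zpow_natCast]
    rw [hb, hh, e1, mul_pow, mul_pow, Units.val_mul, Units.val_pow_eq_pow_val]
    ring
  have hα0 : (s : K) * h ^ l ≠ 0 := mul_ne_zero s.ne_zero (pow_ne_zero _ hh0)
  have hζe : (z / y) ^ e = 1 := by
    rw [div_zpow, hz, div_self (zpow_ne_zero _ hy0)]
  have hζ1 : z / y ≠ 1 := fun h => hzy ((div_eq_one_iff_eq hy0).1 h)
  have hζd : (z / y) ^ d = 1 := by
    rcases hed with h | h
    · rw [h, zpow_natCast] at hζe
      exact hζe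
    · rw [h, zpow_neg, zpow_natCast, inv_eq_one] at hζe
      exact hζe
  have hζZ : z / y ∈ Z := ⟨hζd, hζ1⟩
  have hye : y ^ e = y ^ (e - 1) * y := by
    rw [← zpow_add_one₀ hy0]
    congr 1
    ring
  have hbye : b * y ^ e = (s : K) * h ^ l * y := by
    rw [hye, ← mul_assoc, hα]
  have hbxe : b * x ^ e = ((s : K) * h ^ l - (1 - z / y)) * y := by
    have h1 : (1 - z / y) * y = y - z := by field_simp
    rw [sub_mul, h1, ← hbye]
    linear_combination hx - hy
  rw [hα]
  by_cases hx0 : x = 0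
  · left
    rw [hx0, zero_zpow _ he0, mul_zero] at hbxe
    rcases mul_eq_zero.1 hbxe.symm with h2 | h2
    · exact ⟨z / y, hζZ, (sub_eq_zero.1 h2).symm⟩
    · exact absurd h2 hy0
  · right
    refine Set.mem_biUnion hζZ (Set.mem_biUnion (x := s) hs ?_)
    have hu0 : x / y ≠ 0 := div_ne_zero hx0 hy0
    have hue : (x / y) ^ e + (1 - z / y) / (s : K) * h⁻¹ ^ l = 1 := by
      have h3 : (s : K) * h ^ l * y * (x / y) ^ e = ((s : K) * h ^ l - (1 - z / y)) * y := by
        rw [← hbxe, ← hbye, div_zpow]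
        have := zpow_ne_zero e hy0
        field_simp
      have h4 : (s : K) * h ^ l * (x / y) ^ e = (s : K) * h ^ l - (1 - z / y) := by
        apply mul_right_cancel₀ hy0
        linear_combination h3
      have h5 : (1 - z / y) / (s : K) * h⁻¹ ^ l = (1 - z / y) / ((s : K) * h ^ l) := by
        rw [inv_pow, ← div_eq_mul_inv, div_div]
      rw [h5]
      rw [add_div_eq_mul_add_div _ _ hα0, div_eq_one_iff_eq hα0]
      linear_combination h4
    refine ⟨h⁻¹, ?_, by simp only [inv_inv]⟩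
    rcases hed with h7 | h7
    · rw [h7, zpow_natCast] at hue
      exact ⟨x / y, hue⟩
    · rw [h7, zpow_neg, zpow_natCast] at hue
      exact ⟨(x / y)⁻¹, by rw [inv_pow]; exact hue⟩

end Pool.Agent.W2helper53.BT
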